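import Pool.Agent.Helper45.AM.GoalsA
import Pool.Agent.Helper15.RA.GoalsH

/-!
Project AM (MP_cc6379_al), packet AM-AP: first consequences of `PG`.
-/

open LaurentPolynomial Pool.Agent.Helper15.RA Pool.Agent.Helper45.AM

noncomputable section

namespace Pool.Agent.Helper2.AM

variable {S W H : Type} [Group W] [Ring H] [Algebra ℤ[T;T⁻¹] H]

omit [Group W] in
/-- Expansion of a product in the basis `t`. -/
theorem repr_mul (b : Module.Basis W ℤ[T;T⁻¹] H) (Y Z : H) (z : W) :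
    b.repr (Y * Z) z = ∑ u ∈ (b.repr Y).support, ∑ v ∈ (b.repr Z).support,
      (b.repr Y u * b.repr Z v) * b.repr (b u * b v) z := by
  have h1 : Y = ∑ u ∈ (b.repr Y).support, b.repr Y u • b u := (b.linearCombination_repr Y).symm
  have h2 : Z = ∑ v ∈ (b.repr Z).support, b.repr Z v • b v := (b.linearCombination_repr Z).symm
  conv_lhs => rw [h1, h2]
  rw [Finset.sum_mul, map_sum, Finsupp.finsetSum_apply]
  refine Finset.sum_congr rfl fun u _ => ?_
  rw [Finset.mul_sum, map_sum, Finsupp.finsetSum_apply]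
  refine Finset.sum_congr rfl fun v _ => ?_
  rw [smul_mul_smul_comm, map_smul, Finsupp.smul_apply, smul_eq_mul]

theorem h_a_p (hB : A_B) (hS : A_S) (hM : A_M) (h2 : H_2) : A_P := by
  intro S W H _ _ _ X P α hPG
  obtain ⟨b1, -, -, -, b5, b6⟩ := hB S W H X
  obtain ⟨-, -, -, s4, -, s6, -⟩ := hS S W H X P
  obtain ⟨-, m2, -⟩ := hM S W H X
  obtain ⟨-, -, -, c4, -, c6, -, c8, -⟩ := h2 S W H X.M X.cs X.L X.wt X.D
  have hinv : ∀ z ∈ par X.cs P, α z ≤ α z⁻¹ := by
    intro z hz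
    obtain ⟨x, hx, y, hy, hxy⟩ := hPG.low z hz
    rw [m2] at hxy
    by_contra hlt
    push Not at hlt
    exact hxy (hPG.deg y⁻¹ (inv_mem hy) x⁻¹ (inv_mem hx) z⁻¹ (inv_mem hz) (α z)
      (by exact_mod_cast hlt))
  refine ⟨?_, ?_, ?_, ?_, ?_, ?_⟩
  · obtain ⟨N, hN⟩ := hPG.bdd
    refine ⟨N, fun z hz => ?_⟩
    obtain ⟨x, hx, y, hy, hxy⟩ := hPG.low z hz
    by_contra hlt
    push Not at hlt
    apply hxy
    have hd : ∀ x ∈ par X.cs P, ∀ u, DegLE 0 (X.D.t.repr (X.D.c x) u) := by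
      intro x _ u
      by_cases hu : u = x
      · rw [hu, c4]
        exact DegLE.one le_rfl
      · exact (c6 x u hu).mono (by norm_num)
    have h3 : ∀ w, DegLE (N : ℤ) (X.D.t.repr (X.D.c x * X.D.c y) w) := by
      intro w
      rw [repr_mul]
      refine DegLE.sum fun u hu => DegLE.sum fun v hv => ?_
      have hu' : u ∈ par X.cs P := s4 x hx u (Finsupp.mem_support_iff.1 hu)
      have hv' : v ∈ par X.cs P := s4 y hy v (Finsupp.mem_support_iff.1 hv)
      exact ((hd x hx u).mul (hd y hy v)).mul_le (hN u hu' v hv' w) (by norm_num)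
    have h4 := (b5 N (X.D.c x * X.D.c y)).1 h3 z
    rw [b1] at h4
    exact h4 (α z) (by exact_mod_cast hlt)
  · intro z w hw hzw
    induction hzw with
    | refl => exact ⟨hw, le_rfl⟩
    | tail _ hstep ih =>
      obtain ⟨u, hu, hne⟩ := hstep
      have hb := s6 u hu _ ih.1 _ hne
      exact ⟨hb, ih.2.trans (hPG.p4 u hu _ ih.1 _ hb hne).2⟩
  · intro z w hw hzw
    induction hzw with
    | refl => exact ⟨hw, le_rfl⟩
    | tail _ hstep ih =>
      obtain ⟨u, hu, hne⟩ := hstep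
      have hb := s6 _ ih.1 u hu _ hne
      exact ⟨hb, ih.2.trans (hPG.p4 _ ih.1 u hu _ hb hne).1⟩
  · intro z hz
    refine le_antisymm ?_ (hinv z hz)
    have := hinv z⁻¹ (inv_mem hz)
    rwa [inv_inv] at this
  · by_contra hne
    have h3 := hPG.p1 1 (one_mem _)
    rw [c4] at h3
    have h4 := h3 0 (by omega)
    have h5 : (1 : ℤ[T;T⁻¹]).coeff 0 = 1 := by
      rw [← T_zero, T_apply, if_pos rfl]
    rw [h5] at h4
    exact one_ne_zero h4
  · intro u hu g hg hl
    have h3 := b6 u g hl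
    exact hPG.p4 u hu g hg (u * g) (mul_mem hu hg) (by rw [h3]; exact one_ne_zero)

end Pool.Agent.Helper2.AM
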