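import Pool.Agent.Helper45.AM.GoalsB
import Pool.Agent.Helper45.AM.GoalsD
import Pool.Agent.Helper45.AM.Basic
import Pool.Agent.Helper15.RA.GoalsH

/-!
Project AM (MP_cc6379_al), packet AM-D8: `c_u` lies in the ideal, and P1.
-/

open LaurentPolynomial Pool.Agent.Helper15.RA Pool.Agent.Helper45.AM

noncomputable section

namespace Pool.Agent.Helper2.AM

variable {S W H : Type} [Group W] [Ring H] [Algebra ℤ[T;T⁻¹] H]

omit [Group W] in
theorem repr_fsum {ι : Type*} (b : Module.Basis W ℤ[T;T⁻¹] H) (s : Finset ι) (f : ι → H) (z : W) :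
    b.repr (∑ i ∈ s, f i) z = ∑ i ∈ s, b.repr (f i) z := by
  rw [map_sum, Finsupp.finsetSum_apply]

omit [Group W] in
theorem repr_smul' (b : Module.Basis W ℤ[T;T⁻¹] H) (p : ℤ[T;T⁻¹]) (Y : H) (z : W) :
    b.repr (p • Y) z = p * b.repr Y z := by
  rw [map_smul, Finsupp.smul_apply, smul_eq_mul]

omit [Group W] in
theorem repr_sum_eq (b : Module.Basis W ℤ[T;T⁻¹] H) (Y : H) :
    Y = ∑ u ∈ (b.repr Y).support, b.repr Y u • b u := (b.linearCombination_repr Y).symm

theorem low_zero (h2 : H_2) (hD1 : D_1) (hD3 : D_3) (X : AC S W H) (M n : ℕ) (hN : X.NN M n)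
    (l : H) (hl : X.Low M n (-1) l) (hb : l - X.D.bar l ∈ X.Idl M n) : l = 0 := by
  classical
  obtain ⟨e1, e2, e3, -⟩ := h2 S W H X.M X.cs X.L X.wt X.D
  obtain ⟨-, d2, -⟩ := hD1 S W H X
  have hD := hD3 S W H X M
  choose lam hlam1 hlam2 hlam3 using hD
  let r : W → W → ℤ[T;T⁻¹] := fun w y => X.D.t.repr (X.D.bar (X.D.t w)) y
  let su : W → Finset W := fun w => (X.D.t.repr (X.D.bar (X.D.t w))).support.erase w
  let bb : W → H := fun w => X.D.t w + ∑ y ∈ su w, r w y • lam y
  have hsu : ∀ w, ∀ y ∈ su w, X.cs.length y < X.cs.length w ∧ X.sl y ≤ X.sl w := by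
    intro w y hy
    obtain ⟨hy1, hy2⟩ := Finset.mem_erase.1 hy
    have hy3 := Finsupp.mem_support_iff.1 hy2
    exact ⟨(e3 w y hy3).resolve_left hy1, d2 w y hy3⟩
  have hbar : ∀ w, X.D.bar (X.D.t w) = X.D.t w + ∑ y ∈ su w, r w y • X.D.t y := by
    intro w
    conv_lhs => rw [repr_sum_eq X.D.t (X.D.bar (X.D.t w))]
    have hw : w ∈ (X.D.t.repr (X.D.bar (X.D.t w))).support := by
      rw [Finsupp.mem_support_iff, e2]
      exact one_ne_zero
    rw [← Finset.add_sum_erase _ _ hw, e2, one_smul]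
  let Z : H := l - ∑ w ∈ (X.D.t.repr l).support, invert (X.D.t.repr l w) • bb w
  have hbl : X.D.bar l = ∑ w ∈ (X.D.t.repr l).support,
      invert (X.D.t.repr l w) • X.D.bar (X.D.t w) := by
    conv_lhs => rw [repr_sum_eq X.D.t l]
    rw [map_sum]
    exact Finset.sum_congr rfl fun w _ => e1 _ _
  have hZ : Z ∈ X.Idl M n := by
    have h1 : Z = (l - X.D.bar l) + ∑ w ∈ (X.D.t.repr l).support,
        invert (X.D.t.repr l w) • ∑ y ∈ su w, r w y • (X.D.t y - lam y) := by
      have h2 : X.D.bar l - ∑ w ∈ (X.D.t.repr l).support, invert (X.D.t.repr l w) • bb w =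
          ∑ w ∈ (X.D.t.repr l).support,
            invert (X.D.t.repr l w) • ∑ y ∈ su w, r w y • (X.D.t y - lam y) := by
        rw [hbl, ← Finset.sum_sub_distrib]
        refine Finset.sum_congr rfl fun w _ => ?_
        rw [← smul_sub, hbar w]
        congr 1
        change X.D.t w + ∑ y ∈ su w, r w y • X.D.t y - (X.D.t w + ∑ y ∈ su w, r w y • lam y) = _
        rw [add_sub_add_left_eq_sub, ← Finset.sum_sub_distrib]
        exact Finset.sum_congr rfl fun y _ => (smul_sub _ _ _).symm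
      rw [← h2]
      change l - _ = _
      abel
    rw [h1]
    refine add_mem hb (sum_mem fun w hw => Submodule.smul_mem _ _ (sum_mem fun y hy =>
      Submodule.smul_mem _ _ ?_))
    have h3 := (hl w).2 (Finsupp.mem_support_iff.1 hw)
    exact X.Idl_mono ((hsu w y hy).2.trans h3.2) (hlam1 y)
  have hZ0 : Z = 0 := by
    refine hN Z hZ fun w hw hge => hw ?_
    change X.D.t.repr (l - ∑ w ∈ (X.D.t.repr l).support, invert (X.D.t.repr l w) • bb w) w = 0
    rw [map_sub, Finsupp.sub_apply, repr_fsum]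
    have h1 : X.D.t.repr l w = 0 := by
      by_contra h
      exact ((hl w).2 h).1 hge
    rw [h1, zero_sub, neg_eq_zero]
    refine Finset.sum_eq_zero fun w' hw' => ?_
    rw [repr_smul']
    have h2 : X.D.t.repr (bb w') w = 0 := by
      change X.D.t.repr (X.D.t w' + ∑ y ∈ su w', r w' y • lam y) w = 0
      rw [map_add, Finsupp.add_apply, repr_fsum, X.D.t.repr_self, Finsupp.single_apply, if_neg,
        zero_add]
      · refine Finset.sum_eq_zero fun y _ => ?_
        rw [repr_smul']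
        have h3 : X.D.t.repr (lam y) w = 0 := by
          by_contra h
          exact (hlam3 y w h).1 hge
        rw [h3, mul_zero]
      · rintro rfl
        exact ((hl w').2 (Finsupp.mem_support_iff.1 hw')).1 hge
    rw [h2, mul_zero]
  by_contra hne
  have hsup : (X.D.t.repr l).support.Nonempty := by
    rw [Finsupp.support_nonempty_iff]
    intro h
    exact hne ((LinearEquiv.map_eq_zero_iff _).1 h)
  obtain ⟨w, hw, hmax⟩ := Finset.exists_max_image _ X.cs.length hsup
  have hlen : ∀ w' ∈ (X.D.t.repr l).support, ∀ y ∈ su w', X.D.t.repr (lam y) w = 0 := by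
    intro w' hw' y hy
    by_contra h
    have h1 := (hlam3 y w h).2.2.1
    have h2 := (hsu w' y hy).1
    have h3 := hmax w' hw'
    omega
  have hbw : ∀ w' ∈ (X.D.t.repr l).support, X.D.t.repr (bb w') w = if w' = w then 1 else 0 := by
    intro w' hw'
    change X.D.t.repr (X.D.t w' + ∑ y ∈ su w', r w' y • lam y) w = _
    rw [map_add, Finsupp.add_apply, repr_fsum, X.D.t.repr_self, Finsupp.single_apply,
      Finset.sum_eq_zero, add_zero]
    intro y hy
    rw [repr_smul', hlen w' hw' y hy, mul_zero]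
  have h1 : X.D.t.repr Z w = X.D.t.repr l w - invert (X.D.t.repr l w) := by
    change X.D.t.repr (l - ∑ w ∈ (X.D.t.repr l).support, invert (X.D.t.repr l w) • bb w) w = _
    rw [map_sub, Finsupp.sub_apply, repr_fsum, Finset.sum_eq_single w]
    · rw [repr_smul', hbw w hw, if_pos rfl, mul_one]
    · intro w' hw' hne'
      rw [repr_smul', hbw w' hw', if_neg hne', mul_zero]
    · intro h
      exact absurd hw h
  rw [hZ0, map_zero, Finsupp.zero_apply] at h1
  exact (Finsupp.mem_support_iff.1 hw) (eq_zero_of_invert (hl w).1 (sub_eq_zero.1 h1.symm).symm)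

theorem h_d_8 (h2 : H_2) (hD1 : D_1) (hD2 : D_2) (hD3 : D_3) : D_8 := by
  intro S W H _ _ _ X M hSA u hu hN
  obtain ⟨-, -, -, c4, -, c6, -⟩ := h2 S W H X.M X.cs X.L X.wt X.D
  obtain ⟨-, -, d3, -⟩ := hD1 S W H X
  have hc : X.LamT M (X.sl u) (-1) (X.D.c u) := by
    rw [repr_sum_eq X.D.t (X.D.c u)]
    refine AC.LamT.sum fun y hy => ?_
    have hy' := Finsupp.mem_support_iff.1 hy
    have hsl := d3 u y hy'
    by_cases hyu : y = u
    · subst hyu
      rw [c4, one_smul]
      exact ((hSA (X.sl y + 1) M y (Nat.lt_succ_self _)).2 hu)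
    · exact AC.LamT.smul_le (c6 u y hyu) (hSA (X.sl y + 1) M y (Nat.lt_succ_self _)).1 hsl
        (by norm_num)
  obtain ⟨l, hl1, hl2, hl3⟩ := hc
  have hbar := (hD2 S W H X M).2.2 _ _ hl2
  have hl0 : l = 0 := by
    refine low_zero h2 hD1 hD3 X M (X.sl u) hN l hl1 ?_
    have h1 : l - X.D.bar l = X.D.bar (X.D.c u - l) - (X.D.c u - l) := by
      rw [map_sub, X.D.bar_c]
      abel
    rw [h1]
    exact sub_mem hbar hl2
  rw [hl0, sub_zero] at hl2 hl3
  refine ⟨hl2, ?_⟩
  have h1 : (-(M : ℤ) - 1) = -1 - M := by ring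
  rw [h1]
  exact hl3

end Pool.Agent.Helper2.AM
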