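import Pool.Agent.Helper15.AM.GoalsG

/-!
Project AM (MP_cc6379_al), packet AM-GEX: the exchange condition.
-/

namespace Pool.Agent.Helper2.AM

open Pool.Agent.Helper15.RA Pool.Agent.Helper15.AM

theorem h_gex (hX : X_E) : G_EX := by
  intro S W _ M cs ω i
  induction ω with
  | nil =>
    intro _ h
    rw [CoxeterSystem.wordProd_nil, cs.length_one] at h
    exact absurd h (Nat.not_lt_zero _)
  | cons j ω ih =>
    intro hred hlt
    have hred' : cs.IsReduced ω := by
      have := hred.drop 1
      simpa using this
    by_cases h1 : cs.length (cs.wordProd ω * cs.simple i) < cs.length (cs.wordProd ω)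
    · obtain ⟨k, hk, hk2⟩ := ih hred' h1
      refine ⟨k + 1, by simpa using hk, ?_⟩
      rw [List.eraseIdx_cons_succ, cs.wordProd_cons, cs.wordProd_cons, mul_assoc, hk2]
    · refine ⟨0, by simp, ?_⟩
      rw [List.eraseIdx_cons_zero]
      have h2 := cs.length_mul_simple (cs.wordProd ω) i
      have h3 : cs.length (cs.wordProd ω * cs.simple i) = cs.length (cs.wordProd ω) + 1 := by
        omega
      have h4 : cs.simple j * cs.wordProd ω = cs.wordProd ω * cs.simple i := by
        refine hX S W M cs j i (cs.wordProd ω) (by omega) ?_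
        rw [cs.wordProd_cons] at hlt
        exact hlt
      rw [cs.wordProd_cons, h4, mul_assoc, cs.simple_mul_simple_self, mul_one]

end Pool.Agent.Helper2.AM
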